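import Pool.Agent.Helper994_AS.Tree
import Pool.Agent.Helper994_AS.Chi

set_option autoImplicit false

/-!
# The reciprocal sum of an A-sequence is at most 2.7

An A-sequence is an infinite strictly increasing sequence of positive integers no term of which is a
sum of two or more distinct earlier terms.  The supremum of the reciprocal sums of A-sequences is at
most `2.7`, while the first 40 terms of the chi sequence already have a reciprocal sum above `2.7`.
Hence the inequality of Q1.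

If `D` is a set of shifts all of whose differences are sums of distinct terms among the first `J`, then
the translates by `D` of the later terms are disjoint, and `D` can be prolonged by one shift for every
further term.  A layer cake argument (for every level `ε`, the `x` with more than `ε x` terms up to `x`
have small logarithmic measure) bounds the reciprocal sum of all later terms; a case distinction over
the first terms does the rest.
-/

namespace Pool.Agent.Results.MP_4856b2_nt.ASequenceSupremum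

open Finset

/-- An A-sequence `a 1 < a 2 < a 3 < …` (the value `a 0` plays no role). -/
def IsASequence (a : ℕ → ℕ) : Prop :=
  (∀ k, 1 ≤ k → 0 < a k ∧ a k < a (k + 1)) ∧
  ∀ k, 1 ≤ k → ∀ F : Finset ℕ, F ⊆ Icc 1 (k - 1) → 2 ≤ F.card → ∑ i ∈ F, a i ≠ a k

/-- The chi sequence: `chi 1 = 1`, and for `i > 1` the value `chi i` is the maximum over
`1 ≤ j ≤ i - 1` of `(j + 1) (i - chi j)`. -/
def chi (i : ℕ) : ℤ :=
  if h : i ≤ 1 then 1 else
    (Icc 1 (i - 1)).attach.sup' (by
      rw [attach_nonempty_iff]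
      exact ⟨1, mem_Icc.mpr ⟨le_rfl, by omega⟩⟩)
      (fun j => ((j.1 : ℤ) + 1) * ((i : ℤ) - chi j.1))
termination_by i
decreasing_by
  have := mem_Icc.mp j.2
  omega

/-- The supremum of the reciprocal sums of A-sequences. -/
noncomputable def supA : ENNReal :=
  sSup {x : ENNReal | ∃ a : ℕ → ℕ, IsASequence a ∧ x = ∑' k : ℕ, (a (k + 1) : ENNReal)⁻¹}

lemma chi_one : chi 1 = 1 := by
  rw [chi]; simp

lemma chi_greatest (i : ℕ) (hi : 1 < i) :
    IsGreatest {v : ℤ | ∃ j : ℕ, 1 ≤ j ∧ j ≤ i - 1 ∧ v = ((j : ℤ) + 1) * ((i : ℤ) - chi j)}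
      (chi i) := by
  have hn : ((Icc 1 (i - 1)).attach).Nonempty := by
    rw [attach_nonempty_iff]
    exact ⟨1, mem_Icc.mpr ⟨le_rfl, by omega⟩⟩
  have e : chi i = (Icc 1 (i - 1)).attach.sup' hn
      (fun j => ((j.1 : ℤ) + 1) * ((i : ℤ) - chi j.1)) := by
    rw [chi, dif_neg (by omega)]
  constructor
  · obtain ⟨j, _, h2⟩ := exists_mem_eq_sup' hn (fun j => ((j.1 : ℤ) + 1) * ((i : ℤ) - chi j.1))
    have hj := mem_Icc.mp j.2
    exact ⟨j.1, hj.1, hj.2, by rw [e, h2]⟩
  · rintro v ⟨j, hj1, hj2, rfl⟩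
    rw [e]
    exact le_sup' (fun j : {x // x ∈ Icc 1 (i - 1)} => ((j.1 : ℤ) + 1) * ((i : ℤ) - chi j.1))
      (mem_attach _ ⟨j, mem_Icc.mpr ⟨hj1, hj2⟩⟩)

open Pool.Agent.Helper994_AS in
lemma isA_of (a : ℕ → ℕ) (ha : IsASequence a) : IsA (fun i => a (i + 1)) := by
  refine ⟨?_, (ha.1 1 le_rfl).1, ?_⟩
  · apply strictMono_nat_of_lt_succ
    intro n
    exact (ha.1 (n + 1) (by omega)).2
  · intro n F hF hc
    have h := ha.2 (n + 1) (by omega) (F.map (addRightEmbedding 1)) ?_ (by rwa [card_map])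
    · rwa [sum_map] at h
    · intro i hi
      rw [mem_map] at hi
      obtain ⟨j, hj, rfl⟩ := hi
      have := hF j hj
      rw [mem_Icc]
      simp only [addRightEmbedding_apply]
      omega

open Pool.Agent.Helper994_AS in
lemma real_bound (a : ℕ → ℕ) (ha : IsASequence a) (N : ℕ) :
    ∑ i ∈ range N, (1 : ℝ) / a (i + 1) ≤ 27 / 10 := by
  exact g_X1 (fun i => a (i + 1)) (isA_of a ha) (by simp) (ha.1 1 le_rfl).1 N

lemma ennreal_bound (a : ℕ → ℕ) (ha : IsASequence a) :
    ∑' k : ℕ, (a (k + 1) : ENNReal)⁻¹ ≤ 27 / 10 := by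
  have e0 : (27 / 10 : ENNReal) = ENNReal.ofReal (27 / 10) := by
    rw [ENNReal.ofReal_div_of_pos (by norm_num)]
    norm_num
  apply ENNReal.tsum_le_of_sum_range_le
  intro n
  have h1 : ∑ i ∈ range n, (a (i + 1) : ENNReal)⁻¹ =
      ENNReal.ofReal (∑ i ∈ range n, (1 : ℝ) / a (i + 1)) := by
    rw [ENNReal.ofReal_sum_of_nonneg (fun i _ => by positivity)]
    apply sum_congr rfl
    intro i _
    have hpos : (0 : ℝ) < a (i + 1) := by exact_mod_cast (ha.1 (i + 1) (by omega)).1
    rw [ENNReal.ofReal_div_of_pos hpos, ENNReal.ofReal_one, ENNReal.ofReal_natCast, one_div]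
  rw [h1, e0]
  exact ENNReal.ofReal_le_ofReal (real_bound a ha n)

open Pool.Agent.Helper994_AS in
lemma ennreal_lower : (27 / 10 : ENNReal) < ∑' k : ℕ, ENNReal.ofReal (1 / (chi (k + 1) : ℝ)) := by
  have e0 : (27 / 10 : ENNReal) = ENNReal.ofReal (27 / 10) := by
    rw [ENNReal.ofReal_div_of_pos (by norm_num)]
    norm_num
  have h1 := chi_sum chi chi_one chi_greatest
  have h2 : ENNReal.ofReal (27 / 10) < ENNReal.ofReal (∑ k ∈ range 40, 1 / (chi (k + 1) : ℝ)) := by
    rw [ENNReal.ofReal_lt_ofReal_iff (by linarith)]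
    exact h1
  rw [e0]
  refine lt_of_lt_of_le h2 ?_
  rw [ENNReal.ofReal_sum_of_nonneg]
  · exact ENNReal.sum_le_tsum (range 40)
  · intro i hi
    rw [mem_range] at hi
    have h3 := chi_eq_tab chi chi_one chi_greatest (i + 1) (by omega) (by omega)
    rw [h3]
    have h4 := tab_pos (i + 1) (mem_Icc.mpr ⟨by omega, by omega⟩)
    have h5 : (0 : ℝ) < (tab (i + 1) : ℝ) := by exact_mod_cast h4
    positivity

theorem result :
    (chi 1 = 1 ∧ ∀ i : ℕ, 1 < i →
      IsGreatest {v : ℤ | ∃ j : ℕ, 1 ≤ j ∧ j ≤ i - 1 ∧ v = ((j : ℤ) + 1) * ((i : ℤ) - chi j)}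
        (chi i)) ∧
    supA ≤ 27 / 10 ∧
    27 / 10 < ∑' k : ℕ, ENNReal.ofReal (1 / (chi (k + 1) : ℝ)) := by
  refine ⟨⟨chi_one, chi_greatest⟩, ?_, ennreal_lower⟩
  apply sSup_le
  rintro x ⟨a, ha, rfl⟩
  exact ennreal_bound a ha

end Pool.Agent.Results.MP_4856b2_nt.ASequenceSupremum
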